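import Pool.Agent.LSP.Adm

/-!
# Realized pairs of leaf spaces: an exact criterion (MP_a3f59c_gt, Q1)

Let `Λ`, `Λ'` be simply connected 1-manifolds. For two distinct non-separated points `z`, `z'` let
`Cc z z'` be the complement of the component of the complement of `z` which contains `z'`.
A *cut system* (`Cuts`) assigns to every ordered pair of distinct non-separated points of one of the
two manifolds a half-space of the other one, such that the half-spaces of `(z, z')` and `(z', z)` are
disjoint.

* `(Λ, Λ')` is realized by transverse foliations of the plane if and only if there is an ample cut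
  system (`Ample`), and if and only if some open subset of `Λ × Λ'` has only lines (nonempty
  connected Hausdorff open sets) as horizontal and vertical slices (`Slices`).
* If `(Λ, Λ')` is realized then there is a pairwise compatible cut system (`Compat`: six conditions
  on pairs of half-spaces).
* If `Λ` and `Λ'` have only finitely many pairs of distinct non-separated points, then `(Λ, Λ')` is
  realized if and only if there is a pairwise compatible cut system.

Joint work of helper86 (the criterion and its proof on paper, the toolbox `Pool/Agent/H86`) and the
squad LSP (`Pool/Agent/LSP`).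
-/

open Set Topology Filter

namespace Pool.Agent.Results.MP_a3f59c_gt.CutSystems

open Pool.Agent.H86.Bifol Pool.Agent.LSP

/-- **Realized pairs of leaf spaces.** For simply connected 1-manifolds `Λ`, `Λ'`:
(1) `(Λ, Λ')` is realized if and only if it has an ample cut system;
(2) `(Λ, Λ')` is realized if and only if some open subset of `Λ × Λ'` has only lines as slices;
(3) if it is realized, then it has a compatible cut system;
(4) if both have finitely many pairs of distinct non-separated points, then it is realized if and
only if it has a compatible cut system. -/
theorem result {Λ Λ' : Type*} [TopologicalSpace Λ] [TopologicalSpace Λ'] [SimplyConnectedSpace Λ]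
    [SimplyConnectedSpace Λ'] (hΛ : IsOneManifold Λ) (hΛ' : IsOneManifold Λ') :
    (Realized Λ Λ' ↔ ∃ (V : Λ → Λ → Set Λ') (S : Λ' → Λ' → Set Λ),
      Cuts V S ∧ Ample V S ∧ Ample S V) ∧
    (Realized Λ Λ' ↔ ∃ Ω : Set (Λ × Λ'), Slices Ω) ∧
    (Realized Λ Λ' → ∃ (V : Λ → Λ → Set Λ') (S : Λ' → Λ' → Set Λ), Compat V S) ∧
    (FinType Λ → FinType Λ' →
      (Realized Λ Λ' ↔ ∃ (V : Λ → Λ → Set Λ') (S : Λ' → Λ' → Set Λ), Compat V S)) := by
  have _ : SCM Λ := ⟨hΛ.hasCharts⟩
  have _ : SCM Λ' := ⟨hΛ'.hasCharts⟩
  have _ := hΛ.secondCountable
  have _ := hΛ'.secondCountable
  refine ⟨?_, realized_iff_slices, compat_of_realized, realized_iff_of_finType⟩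
  rw [realized_iff]
  exact exists_congr fun V => exists_congr fun S =>
    and_congr Iff.rfl (and_congr ample_iff.symm ample_swap_iff.symm)

end Pool.Agent.Results.MP_a3f59c_gt.CutSystems
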