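import Pool.Agent.H86.FamOf

/-!
# The pairs of leaf spaces one of which is the line (MP_a3f59c_gt, Q1)

For a simply connected 1-manifold `Λ` (possibly non-Hausdorff), the pair `(Λ, ℝ)` is realized by
transverse foliations of the plane if and only if `Λ` does not have three pairwise disjoint folded
half-spaces. The same condition is equivalent to `(ℝ, Λ)` being realized.

The definitions are in `Pool/Agent/H86/BifolDefs.lean` and `Pool/Agent/H86/Folded.lean`.

Necessity: `exists_halfSpace_of_folded` (file `Folded`). Sufficiency: the two disjoint folded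
half-spaces, if there are any, distribute the folded half-spaces in two types (`Types`); by
insertion of one line after the other we construct a countable totally ordered family of lines
of `Λ` which covers `Λ` and is convex (`Family`, `Cover`); it gives an open subset of `Λ × ℝ` whose
fibres over `ℝ` are lines and whose fibres over `Λ` are intervals (`FamOf`), this set is
homeomorphic to the plane (`Orient`, `LineOrder`, `Omega`, `Plane`, `Homeo`), and the two projections
define the foliations (`FromMap`).
-/

open Set Topology Filter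

namespace Pool.Agent.Results.MP_a3f59c_gt.LineCase

open Pool.Agent.H86.Bifol

/-- **All realized pairs one member of which is the line.** For a simply connected 1-manifold `Λ`
the pair `(Λ, ℝ)` is realized if and only if `Λ` has no three pairwise disjoint folded half-spaces,
and the same holds for the pair `(ℝ, Λ)`. -/
theorem result {Λ : Type*} [TopologicalSpace Λ] [SimplyConnectedSpace Λ] (hΛ : IsOneManifold Λ) :
    (Realized Λ ℝ ↔ ¬ ∃ H₁ H₂ H₃ : Set Λ, IsFolded H₁ ∧ IsFolded H₂ ∧ IsFolded H₃ ∧
      Disjoint H₁ H₂ ∧ Disjoint H₁ H₃ ∧ Disjoint H₂ H₃) ∧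
    (Realized ℝ Λ ↔ ¬ ∃ H₁ H₂ H₃ : Set Λ, IsFolded H₁ ∧ IsFolded H₂ ∧ IsFolded H₃ ∧
      Disjoint H₁ H₂ ∧ Disjoint H₁ H₃ ∧ Disjoint H₂ H₃) := by
  have h1 : Realized Λ ℝ ↔ NoThree Λ := by
    refine ⟨noThree_of_realized hΛ.hasCharts, fun h => ?_⟩
    have _ : SCM Λ := ⟨hΛ.hasCharts⟩
    have _ := hΛ.secondCountable
    exact realized_of_noThree h
  exact ⟨h1, ⟨fun h => h1.1 h.symm, fun h => (h1.2 h).symm⟩⟩

end Pool.Agent.Results.MP_a3f59c_gt.LineCase
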