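import Pool.Agent.LST.Main

/-!
# Realized triples of leaf spaces: an exact criterion (MP_a3f59c_gt, Q2)

Let `Λ₁`, `Λ₂`, `Λ₃` be simply connected 1-manifolds.

* `(Λ₁, Λ₂, Λ₃)` is realized by three pairwise transverse foliations of the plane if and only if there
  is a cut system (`CutData` for each of the three manifolds, with respect to orientations) whose
  conditions can be satisfied around every point (`HasCuts`).
* It is realized if and only if there are orientations and open subsets `A`, `B`, `C` of `Λ₁ × Λ₂`,
  `Λ₂ × Λ₃`, `Λ₃ × Λ₁` with line slices, such that every point of the three manifolds is a coordinate of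
  a point with all its pairs in `A`, `B`, `C`, and which satisfy the corner condition (`Tri`).
* If it is realized then it has a compatible cut system (`HasCompatCuts`), and the converse holds if
  the three manifolds have finitely many pairs of distinct non-separated points.

Sufficiency: the corner condition makes the relation of being below, with the whole box, on the set
`Mh A B C` of the points with all pairs in `A`, `B`, `C` transitive and closed (`Low`). It gives a
continuous function on `Mh A B C` which decreases in every coordinate and tends to zero at the upper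
ends of the axis fibres (`Gfun`, `Mplus`), and in the same way one for the lower ends. Where the two
are equal is a surface, which is mapped homeomorphically onto `A`, `B` and `C` by the three pairs of
coordinates (`Zero`, `Maps`), and `A` is a plane by the theorem on pairs.
Necessity: `Sgn`, `Ori` (orientations), `CuspA`, `CuspB` (cut points).
From cut systems to sets: `CSlice`, `CTri`, `Upg`. Finite type: `FinA`, `FinB` (Helly's theorem).

Joint work of helper79 (criterion and proof), helper21 and helper86 (the theorem on pairs, the
toolboxes `Pool/Agent/H86`, `Pool/Agent/LSP`, discussion of the signs) and the squad LST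
(`Pool/Agent/LST`).
-/

open Set Topology Filter

namespace Pool.Agent.Results.MP_a3f59c_gt.TripleCutSystems

open Pool.Agent.H86.Bifol Pool.Agent.LSP Pool.Agent.LST

/-- **Realized triples of leaf spaces.** For simply connected 1-manifolds `Λ₁`, `Λ₂`, `Λ₃`:
(1) `(Λ₁, Λ₂, Λ₃)` is realized if and only if it has a cut system whose conditions can be satisfied
around every point;
(2) it is realized if and only if there is a triangle of sets with line slices (`Tri`);
(3) if it is realized, then it has a compatible cut system;
(4) if the three manifolds have finitely many pairs of distinct non-separated points, then it is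
realized if and only if it has a compatible cut system. -/
theorem result {Λ₁ Λ₂ Λ₃ : Type*} [TopologicalSpace Λ₁] [TopologicalSpace Λ₂]
    [TopologicalSpace Λ₃] [SimplyConnectedSpace Λ₁] [SimplyConnectedSpace Λ₂]
    [SimplyConnectedSpace Λ₃] (h₁ : IsOneManifold Λ₁) (h₂ : IsOneManifold Λ₂)
    (h₃ : IsOneManifold Λ₃) :
    (RealizedTriple Λ₁ Λ₂ Λ₃ ↔ HasCuts Λ₁ Λ₂ Λ₃) ∧
    (RealizedTriple Λ₁ Λ₂ Λ₃ ↔ ∃ (o₁ : Orientation Λ₁) (o₂ : Orientation Λ₂)
      (o₃ : Orientation Λ₃) (A : Set (Λ₁ × Λ₂)) (B : Set (Λ₂ × Λ₃)) (C : Set (Λ₃ × Λ₁)),
      Tri o₁ o₂ o₃ A B C) ∧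
    (RealizedTriple Λ₁ Λ₂ Λ₃ → HasCompatCuts Λ₁ Λ₂ Λ₃) ∧
    (FinType Λ₁ → FinType Λ₂ → FinType Λ₃ →
      (RealizedTriple Λ₁ Λ₂ Λ₃ ↔ HasCompatCuts Λ₁ Λ₂ Λ₃)) := by
  have _ : SCM Λ₁ := ⟨h₁.hasCharts⟩
  have _ : SCM Λ₂ := ⟨h₂.hasCharts⟩
  have _ : SCM Λ₃ := ⟨h₃.hasCharts⟩
  have _ := h₁.secondCountable
  have _ := h₂.secondCountable
  have _ := h₃.secondCountable
  exact ⟨realizedTriple_iff_cuts, realizedTriple_iff_tri, compatCuts_of_realizedTriple,
    realizedTriple_iff_of_finType⟩

end Pool.Agent.Results.MP_a3f59c_gt.TripleCutSystems
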