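import Pool.Agent.H86.Triple2

/-!
# The triples of leaf spaces two of which are the line (MP_a3f59c_gt, Q2)

For a simply connected 1-manifold `Λ` (possibly non-Hausdorff), the triple `(Λ, ℝ, ℝ)` is realized
by three pairwise transverse foliations of the plane if and only if `Λ` does not have three pairwise
disjoint folded half-spaces. The same holds for `(ℝ, Λ, ℝ)` and `(ℝ, ℝ, Λ)`.

The definitions are in `Pool/Agent/H86/BifolDefs.lean`, `Pool/Agent/H86/Folded.lean` and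
`Pool/Agent/H86/Triple.lean`.

The plane and the first two foliations are those of the hand-in `LineCase`. In the coordinates
`(x, h)` of the files `Plane`, `Homeo` the leaves of the first foliation are 4-Lipschitz graphs over
`x` and the leaves of the second one are vertical, and the domain lies between the graphs of two
4-Lipschitz functions. The third foliation consists of the lines of slope 8 (`Triple`, `Triple2`).
-/

open Set Topology Filter

namespace Pool.Agent.Results.MP_a3f59c_gt.TripleLineCase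

open Pool.Agent.H86.Bifol

/-- **All realized triples two members of which are the line.** -/
theorem result {Λ : Type*} [TopologicalSpace Λ] [SimplyConnectedSpace Λ] (hΛ : IsOneManifold Λ) :
    (RealizedTriple Λ ℝ ℝ ↔ ¬ ∃ H₁ H₂ H₃ : Set Λ, IsFolded H₁ ∧ IsFolded H₂ ∧ IsFolded H₃ ∧
      Disjoint H₁ H₂ ∧ Disjoint H₁ H₃ ∧ Disjoint H₂ H₃) ∧
    (RealizedTriple ℝ Λ ℝ ↔ ¬ ∃ H₁ H₂ H₃ : Set Λ, IsFolded H₁ ∧ IsFolded H₂ ∧ IsFolded H₃ ∧
      Disjoint H₁ H₂ ∧ Disjoint H₁ H₃ ∧ Disjoint H₂ H₃) ∧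
    (RealizedTriple ℝ ℝ Λ ↔ ¬ ∃ H₁ H₂ H₃ : Set Λ, IsFolded H₁ ∧ IsFolded H₂ ∧ IsFolded H₃ ∧
      Disjoint H₁ H₂ ∧ Disjoint H₁ H₃ ∧ Disjoint H₂ H₃) := by
  have hs : NoThree Λ → RealizedTriple Λ ℝ ℝ := by
    intro h
    have _ : SCM Λ := ⟨hΛ.hasCharts⟩
    have _ := hΛ.secondCountable
    exact realizedTriple_of_noThree h
  have hn : Realized Λ ℝ → NoThree Λ := noThree_of_realized hΛ.hasCharts
  refine ⟨⟨?_, hs⟩, ⟨?_, fun h => ?_⟩, ⟨?_, fun h => ?_⟩⟩
  · rintro ⟨F₁, F₂, F₃, h12, h13, h23, e1, e2, e3⟩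
    exact hn ⟨F₁, F₂, h12, e1, e2⟩
  · rintro ⟨F₁, F₂, F₃, h12, h13, h23, e1, e2, e3⟩
    exact hn ⟨F₂, F₃, h23, e2, e3⟩
  · obtain ⟨F₁, F₂, F₃, h12, h13, h23, e1, e2, e3⟩ := hs h
    exact ⟨F₂, F₁, F₃, h12.symm, h23, h13, e2, e1, e3⟩
  · rintro ⟨F₁, F₂, F₃, h12, h13, h23, e1, e2, e3⟩
    exact hn ⟨F₃, F₁, h13.symm, e3, e1⟩
  · obtain ⟨F₁, F₂, F₃, h12, h13, h23, e1, e2, e3⟩ := hs h
    exact ⟨F₂, F₃, F₁, h23, h12.symm, h13.symm, e2, e3, e1⟩

end Pool.Agent.Results.MP_a3f59c_gt.TripleLineCase
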